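import Pool.Agent.helper50.NPT.Spec1

namespace NPT

open scoped Classical
open AN

noncomputable section

theorem WNO_mem (p : ℕ) [Fact p.Prime] {R : Type} [CommRing R] {g : ℕ} (γ : Fin g → ℕ)
    (a : ℕ → LS R) (X : WittVector p (LS R)) :
    X ∈ N0 p γ a ↔ ∃ α ∈ Wc p (AA γ a : Set (LS R)), ∃ β ∈ Wc p (PS R : Set (LS R)), α + β = X := by
  unfold N0
  exact AddSubgroup.mem_sup

theorem WNO_c0 (p : ℕ) [Fact p.Prime] {B : Type} [CommRing B] (X Y : WittVector p B) :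
    (X - Y).coeff 0 = X.coeff 0 - Y.coeff 0 :=
  map_sub (WittVector.constantCoeff : WittVector p B →+* B) X Y

/-- an element of `W(S)` with component 0 equal to 0 is `V` of an element of `W(S)` -/
theorem WNO_ver (h2 : WTA_stmt) (h3 : WSR_stmt) (p : ℕ) [Fact p.Prime] {B : Type} [CommRing B]
    (S : Subring B) (X : WittVector p B) (hX : X ∈ Wc p (S : Set B)) (h0 : X.coeff 0 = 0) :
    ∃ Y ∈ Wc p (S : Set B), X = WittVector.verschiebung Y := by
  obtain ⟨r, hr⟩ := (h2 p B).2.2 X h0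
  refine ⟨r, ?_, hr⟩
  rw [(h3 p B S).1]
  intro n
  have h := ((h3 p B S).1 X).mp hX (n + 1)
  rw [hr, WittVector.verschiebung_coeff_succ] at h
  exact h

/-- the subring `A` -/
def WNO_A (h1 : KB_stmt) {R : Type} [CommRing R] {g : ℕ} (γ : Fin g → ℕ) (a : ℕ → LS R)
    (hK : IsK γ a) : Subring (LS R) where
  carrier := AA γ a
  mul_mem' := fun {x y} hx hy => (h1 R g γ a hK).2.2.2.1 x hx y hy
  one_mem' := by
    have h := (h1 R g γ a hK).2.1 1
    rw [map_one] at h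
    exact h
  add_mem' := fun {x y} hx hy => Submodule.add_mem _ hx hy
  zero_mem' := Submodule.zero_mem _
  neg_mem' := fun {x} hx => Submodule.neg_mem _ hx

/-- the subring `PS` -/
def WNO_P (R : Type) [CommRing R] : Subring (LS R) where
  carrier := PS R
  mul_mem' := fun {x y} hx hy => PS_mul hx hy
  one_mem' := one_mem_PS
  add_mem' := fun {x y} hx hy => Submodule.add_mem _ hx hy
  zero_mem' := Submodule.zero_mem _
  neg_mem' := fun {x} hx => Submodule.neg_mem _ hx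

theorem WNO (h1 : KB_stmt) (h2 : WTA_stmt) (h3 : WSR_stmt) : WNO_stmt := by
  intro p hp R _ _ g γ a hK
  obtain ⟨-, kb_C, kb_int, -, -, -, -, -⟩ := h1 R g γ a hK
  obtain ⟨sA1, sA2, sA3, sA4, sA5⟩ := h3 p (LS R) (WNO_A h1 γ a hK)
  obtain ⟨sP1, sP2, sP3, sP4, sP5⟩ := h3 p (LS R) (WNO_P R)
  have hcA : ((WNO_A h1 γ a hK : Subring (LS R)) : Set (LS R)) = (AA γ a : Set (LS R)) := rfl
  have hcP : ((WNO_P R : Subring (LS R)) : Set (LS R)) = (PS R : Set (LS R)) := rfl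
  rw [hcA] at sA1 sA2 sA3 sA4 sA5
  rw [hcP] at sP1 sP2 sP3 sP4 sP5
  have tA : ∀ f ∈ AA γ a, WittVector.teichmuller p f ∈ Wc p (AA γ a : Set (LS R)) :=
    fun f hf => sA5 f hf
  have tP : ∀ f ∈ PS R, WittVector.teichmuller p f ∈ Wc p (PS R : Set (LS R)) :=
    fun f hf => sP5 f hf
  have hAN : ∀ X ∈ Wc p (AA γ a : Set (LS R)), X ∈ N0 p γ a := fun X hX =>
    (WNO_mem p γ a X).mpr ⟨X, hX, 0, AddSubgroup.zero_mem _, add_zero X⟩
  have hPN : ∀ X ∈ Wc p (PS R : Set (LS R)), X ∈ N0 p γ a := fun X hX =>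
    (WNO_mem p γ a X).mpr ⟨0, AddSubgroup.zero_mem _, X, hX, zero_add X⟩
  refine ⟨?_, ?_, ?_, ?_, ?_, ?_, ?_⟩
  · rintro f (hf | hf)
    · exact hAN _ (tA f hf)
    · exact hPN _ (tP f hf)
  · intro X hX
    obtain ⟨α, hα, β, hβ, rfl⟩ := (WNO_mem p γ a X).mp hX
    rw [map_add]
    exact AddSubgroup.add_mem _ (hAN _ (sA3 α hα)) (hPN _ (sP3 β hβ))
  · intro X hX
    obtain ⟨α, hα, β, hβ, rfl⟩ := (WNO_mem p γ a X).mp hX
    rw [map_add]
    exact AddSubgroup.add_mem _ (hAN _ (sA4 α hα)) (hPN _ (sP4 β hβ))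
  · intro c X hX
    obtain ⟨α, hα, β, hβ, rfl⟩ := (WNO_mem p γ a X).mp hX
    rw [mul_add]
    exact AddSubgroup.add_mem _ (hAN _ (sA2 _ (tA _ (kb_C c)) α hα))
      (hPN _ (sP2 _ (tP _ (C_mem_PS c)) β hβ))
  · intro X hX
    obtain ⟨α, hα, β, hβ, hs⟩ := (WNO_mem p γ a _).mp hX
    have h0 : α.coeff 0 + β.coeff 0 = 0 := by
      rw [← WittVector.add_coeff_zero, hs, WittVector.verschiebung_coeff_zero]
    have hα0 : α.coeff 0 ∈ AA γ a := (sA1 α).mp hα 0
    have hβ0 : β.coeff 0 ∈ PS R := (sP1 β).mp hβ 0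
    have hα1 : α.coeff 0 ∈ PS R := by
      rw [eq_neg_of_add_eq_zero_left h0]
      exact Submodule.neg_mem _ hβ0
    obtain ⟨c, hc⟩ := kb_int _ hα0 hα1
    have hA : α - WittVector.teichmuller p (LS.C c) ∈ Wc p (AA γ a : Set (LS R)) :=
      AddSubgroup.sub_mem _ hα (tA _ (kb_C c))
    have hP : β + WittVector.teichmuller p (LS.C c) ∈ Wc p (PS R : Set (LS R)) :=
      AddSubgroup.add_mem _ hβ (tP _ (C_mem_PS c))
    have hA0 : (α - WittVector.teichmuller p (LS.C c)).coeff 0 = 0 := by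
      rw [WNO_c0, WittVector.teichmuller_coeff_zero, hc, sub_self]
    have hP0 : (β + WittVector.teichmuller p (LS.C c)).coeff 0 = 0 := by
      rw [WittVector.add_coeff_zero, WittVector.teichmuller_coeff_zero, ← hc, add_comm]
      exact h0
    obtain ⟨α', hα', hαV⟩ := WNO_ver h2 h3 p (WNO_A h1 γ a hK) _ hA hA0
    obtain ⟨β', hβ', hβV⟩ := WNO_ver h2 h3 p (WNO_P R) _ hP hP0
    have hV : WittVector.verschiebung X = WittVector.verschiebung (α' + β') := by
      rw [map_add, ← hαV, ← hβV, ← hs]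
      ring
    have hX' : X = α' + β' := (WittVector.verschiebung_injective p (LS R)) hV
    rw [hX']
    exact AddSubgroup.add_mem _ (hAN _ hα') (hPN _ hβ')
  · intro X hX
    obtain ⟨α, hα, β, hβ, rfl⟩ := (WNO_mem p γ a X).mp hX
    exact ⟨α.coeff 0, (sA1 α).mp hα 0, β.coeff 0, (sP1 β).mp hβ 0, WittVector.add_coeff_zero α β⟩
  · rintro X ⟨α, hα, o, ho, hX0⟩
    have h0 : (X - WittVector.teichmuller p α - WittVector.teichmuller p o).coeff 0 = 0 := by
      rw [WNO_c0, WNO_c0, WittVector.teichmuller_coeff_zero, WittVector.teichmuller_coeff_zero, hX0]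
      ring
    obtain ⟨r, hr⟩ := (h2 p (LS R)).2.2 _ h0
    refine ⟨r, ?_⟩
    have h4 : X - WittVector.verschiebung r =
        WittVector.teichmuller p α + WittVector.teichmuller p o := by
      rw [← hr]
      ring
    rw [h4]
    exact AddSubgroup.add_mem _ (hAN _ (tA α hα)) (hPN _ (tP o ho))

end

end NPT
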